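import Mathlib

/-!
# MP_987c99_al : the log-ozone group can be larger than the rank over the Poisson center

For every prime `p`, every field `k` of characteristic `p` and every `n ≥ 4` the graded
polynomial Poisson algebra `k[x, z_1, …, z_{n-1}]` with `{x, z_i} = z_i ^ 2`, `{z_i, z_j} = 0`
has rank at most `p ^ 2` over its Poisson center and at least `p ^ (n-1)` log-ozone derivations.
-/

namespace Pool.Agent.Results.MP_987c99_al.LozExceedsRank

open MvPolynomial TensorProduct

universe u

section defs

variable (k P : Type u) [Field k] [CommRing P] [Algebra k P]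

/-- A Poisson bracket on the commutative `k`-algebra `P`: a `k`-bilinear map `{-,-}` such that
`{a,-}` is a `k`-derivation of `P` for every `a`, `{a,a} = 0` and the Jacobi identity holds. -/
structure PoissonBracket where
  br : P →ₗ[k] Derivation k P P
  alt : ∀ a, br a a = 0
  jacobi : ∀ a b c, br a (br b c) + br b (br c a) + br c (br a b) = 0

variable {k P}

namespace PoissonBracket

variable (B : PoissonBracket k P)

lemma anti (a b : P) : B.br a b = - B.br b a := by
  have h := B.alt (a + b)
  simp only [map_add, Derivation.add_apply, B.alt, zero_add, add_zero] at h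
  linear_combination h

/-- The Poisson center `Z(P)`. -/
def center : Subalgebra k P where
  carrier := {z | ∀ a, B.br z a = 0}
  mul_mem' := by
    intro z w hz hw a
    rw [B.anti, Derivation.leibniz, B.anti a z, B.anti a w, hz, hw]
    simp
  add_mem' := by
    intro z w hz hw a
    rw [map_add, Derivation.add_apply, hz, hw, add_zero]
  algebraMap_mem' := by
    intro r a
    rw [B.anti, Derivation.map_algebraMap, neg_zero]

/-- `f` is Poisson normal: `f ≠ 0` and `{a,f} ∈ fP` for all `a ∈ P`. -/
def IsNormal (f : P) : Prop := f ≠ 0 ∧ ∀ a, f ∣ B.br a f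

/-- The log-ozone group `loz(P)`: the additive group of derivations generated by the
`δ_f = f⁻¹{-,f}`, that is by the derivations `δ` with `f * δ a = {a,f}` for all `a`,
`f` Poisson normal. -/
def loz : AddSubgroup (Derivation k P P) :=
  AddSubgroup.closure {δ | ∃ f, B.IsNormal f ∧ ∀ a, f * δ a = B.br a f}

/-- The rank of `P` over `Z(P)`: the dimension of `Q ⊗ P` over `Q = Frac Z(P)`. -/
noncomputable def rk : Cardinal :=
  Module.rank (FractionRing B.center) (FractionRing B.center ⊗[B.center] P)

end PoissonBracket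

end defs

/-- The bracket of a polynomial Poisson algebra is graded: `{P_i,P_j} ⊆ P_{i+j}`. -/
def IsGraded {k : Type u} [Field k] {n : ℕ} (B : PoissonBracket k (MvPolynomial (Fin n) k)) :
    Prop :=
  ∀ (i j : ℕ) (f g : MvPolynomial (Fin n) k), f.IsHomogeneous i → g.IsHomogeneous j →
    (B.br f g).IsHomogeneous (i + j)

/-- The bracket `{f,g} = D f * E g - E f * D g` of two commuting derivations. -/
def ofCommuting {k P : Type u} [Field k] [CommRing P] [Algebra k P] (D E : Derivation k P P)
    (h : ∀ f, D (E f) = E (D f)) : PoissonBracket k P where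
  br :=
    { toFun := fun f => D f • E - E f • D
      map_add' := by
        intro f g
        ext a
        simp only [map_add, Derivation.sub_apply, Derivation.smul_apply, Derivation.add_apply,
          smul_eq_mul]
        ring
      map_smul' := by
        intro r f
        ext a
        simp only [Derivation.map_smul, Derivation.sub_apply, Derivation.smul_apply,
          smul_eq_mul, RingHom.id_apply]
        simp only [Algebra.smul_def]
        ring }
  alt := by
    intro a
    simp only [LinearMap.coe_mk, AddHom.coe_mk, Derivation.sub_apply, Derivation.smul_apply,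
      smul_eq_mul]
    ring
  jacobi := by
    intro a b c
    simp only [LinearMap.coe_mk, AddHom.coe_mk, Derivation.sub_apply, Derivation.smul_apply,
      smul_eq_mul, map_sub, Derivation.leibniz, h]
    ring

lemma ofCommuting_br {k P : Type u} [Field k] [CommRing P] [Algebra k P] (D E : Derivation k P P)
    (h : ∀ f, D (E f) = E (D f)) (f g : P) :
    (ofCommuting D E h).br f g = D f * E g - E f * D g := rfl

lemma rank_le_of_span {Z P ι : Type*} [CommRing Z] [IsDomain Z] [AddCommGroup P] [Module Z P]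
    [Fintype ι] (g : ι → P)
    (H : ∀ f : P, ∃ c : Z, c ≠ 0 ∧ c • f ∈ Submodule.span Z (Set.range g)) :
    Module.rank (FractionRing Z) (FractionRing Z ⊗[Z] P) ≤ (Fintype.card ι : Cardinal) := by
  classical
  set Q := FractionRing Z
  let g' : ι → Q ⊗[Z] P := fun q => 1 ⊗ₜ g q
  let s : Finset (Q ⊗[Z] P) := Finset.univ.image g'
  have hspan : Submodule.span Q (s : Set (Q ⊗[Z] P)) = ⊤ := by
    rw [eq_top_iff]
    rintro t -
    induction t using TensorProduct.induction_on with
    | zero => exact zero_mem _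
    | add x y hx hy => exact add_mem hx hy
    | tmul q f =>
      have h1 : ∀ f' ∈ Submodule.span Z (Set.range g),
          (1 : Q) ⊗ₜ[Z] f' ∈ Submodule.span Q (s : Set (Q ⊗[Z] P)) := by
        intro f' hf'
        induction hf' using Submodule.span_induction with
        | mem x hx =>
          obtain ⟨q, rfl⟩ := hx
          apply Submodule.subset_span
          simp only [s, Finset.coe_image, Finset.coe_univ, Set.image_univ]
          exact ⟨q, rfl⟩
        | zero => rw [TensorProduct.tmul_zero]; exact zero_mem _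
        | add x y _ _ hx hy => rw [TensorProduct.tmul_add]; exact add_mem hx hy
        | smul c x _ hx =>
          have : (1 : Q) ⊗ₜ[Z] (c • x) = (algebraMap Z Q c) • ((1 : Q) ⊗ₜ[Z] x) := by
            rw [TensorProduct.smul_tmul', TensorProduct.tmul_smul, TensorProduct.smul_tmul',
              smul_eq_mul, mul_one, Algebra.algebraMap_eq_smul_one]
          rw [this]
          exact Submodule.smul_mem _ _ hx
      obtain ⟨c, hc, hcf⟩ := H f
      have h2 := h1 _ hcf
      have hc' : algebraMap Z Q c ≠ 0 := by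
        intro h
        exact hc (IsFractionRing.injective Z Q (h.trans (map_zero _).symm))
      have e : q ⊗ₜ[Z] f = (q * (algebraMap Z Q c)⁻¹) • ((1 : Q) ⊗ₜ[Z] (c • f)) := by
        rw [TensorProduct.smul_tmul', TensorProduct.tmul_smul, TensorProduct.smul_tmul',
          smul_eq_mul, mul_one, Algebra.smul_def, mul_comm, mul_assoc, inv_mul_cancel₀ hc',
          mul_one]
      rw [e]
      exact Submodule.smul_mem _ _ h2
  have h := rank_span_finset_le (R := Q) s
  rw [hspan, rank_top] at h
  refine h.trans ?_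
  have h3 : s.card ≤ Fintype.card ι := Finset.card_image_le
  exact_mod_cast h3

section example_

variable (k : Type u) [Field k] (m : ℕ)

/-- `∂/∂x`, with `x = X 0`. -/
noncomputable def Dx : Derivation k (MvPolynomial (Fin (m + 1)) k) (MvPolynomial (Fin (m + 1)) k) :=
  pderiv 0

/-- `E = ∑ z_i ^ 2 ∂/∂z_i`, with `z_i = X i`, `i ≠ 0`. -/
noncomputable def Ez : Derivation k (MvPolynomial (Fin (m + 1)) k) (MvPolynomial (Fin (m + 1)) k) :=
  mkDerivation k (fun i => if i = 0 then 0 else X i ^ 2)

lemma Dx_X0 : Dx k m (X 0) = 1 := by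
  simp [Dx]

lemma Dx_X {i : Fin (m + 1)} (h : i ≠ 0) : Dx k m (X i) = 0 := by
  simp [Dx, pderiv_X_of_ne h]

lemma Ez_X0 : Ez k m (X 0) = 0 := by
  simp [Ez]

lemma Ez_X {i : Fin (m + 1)} (h : i ≠ 0) : Ez k m (X i) = X i ^ 2 := by
  simp [Ez, h]

lemma comm_DE (f : MvPolynomial (Fin (m + 1)) k) : Dx k m (Ez k m f) = Ez k m (Dx k m f) := by
  have h : ⁅Dx k m, Ez k m⁆ = 0 := by
    apply MvPolynomial.derivation_ext
    intro i
    rw [Derivation.commutator_apply]
    by_cases hi : i = 0
    · subst hi
      rw [Ez_X0, Dx_X0]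
      simp
    · rw [Ez_X k m hi, Dx_X k m hi]
      simp [Dx_X k m hi]
  have := congrArg (fun d => d f) h
  rw [Derivation.commutator_apply] at this
  simpa [sub_eq_zero] using this

/-- the bracket `{x, z_i} = z_i ^ 2`, `{z_i, z_j} = 0`. -/
noncomputable def B : PoissonBracket k (MvPolynomial (Fin (m + 1)) k) :=
  ofCommuting (Dx k m) (Ez k m) (comm_DE k m)

lemma B_br (f g : MvPolynomial (Fin (m + 1)) k) :
    (B k m).br f g = Dx k m f * Ez k m g - Ez k m f * Dx k m g := rfl

lemma Dx_hom {i : ℕ} {f : MvPolynomial (Fin (m + 1)) k} (hf : f.IsHomogeneous (i + 1)) :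
    (Dx k m f).IsHomogeneous i := by
  have := hf.pderiv (i := 0)
  simpa [Dx] using this

lemma sum_der_apply {ι : Type} {k P : Type u} [Field k] [CommRing P] [Algebra k P]
    (s : Finset ι) (D : ι → Derivation k P P) (f : P) : (∑ i ∈ s, D i) f = ∑ i ∈ s, D i f := by
  classical
  induction s using Finset.induction_on with
  | empty => simp
  | insert a s ha ih => rw [Finset.sum_insert ha, Finset.sum_insert ha, Derivation.add_apply, ih]

lemma Ez_eq (f : MvPolynomial (Fin (m + 1)) k) :
    Ez k m f = ∑ i : Fin (m + 1), (if i = 0 then 0 else X i ^ 2) * pderiv i f := by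
  have h : Ez k m = ∑ i : Fin (m + 1),
      (if i = 0 then (0 : MvPolynomial (Fin (m + 1)) k) else X i ^ 2) • pderiv i := by
    apply MvPolynomial.derivation_ext
    intro j
    rw [sum_der_apply, Finset.sum_eq_single j]
    · rw [Derivation.smul_apply]
      simp [Ez]
    · intro b _ hb
      rw [Derivation.smul_apply, pderiv_X_of_ne hb.symm, smul_zero]
    · simp
  rw [h, sum_der_apply]
  rfl

lemma Ez_hom {i : ℕ} {f : MvPolynomial (Fin (m + 1)) k} (hf : f.IsHomogeneous (i + 1)) :
    (Ez k m f).IsHomogeneous (i + 2) := by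
  rw [Ez_eq]
  apply IsHomogeneous.sum
  intro j _
  by_cases hj : j = 0
  · simp [hj, isHomogeneous_zero]
  · rw [if_neg hj, add_comm i 2]
    exact ((isHomogeneous_X k j).pow 2).mul (by simpa using hf.pderiv (i := j))

lemma der_const {f : MvPolynomial (Fin (m + 1)) k} (hf : f.IsHomogeneous 0)
    (D : Derivation k (MvPolynomial (Fin (m + 1)) k) (MvPolynomial (Fin (m + 1)) k)) :
    D f = 0 := by
  obtain ⟨c, rfl⟩ : ∃ c, f = C c := by
    refine ⟨coeff 0 f, ?_⟩
    exact (totalDegree_eq_zero_iff_eq_C.1 ((totalDegree_zero_iff_isHomogeneous _).2 hf))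
  exact Derivation.map_algebraMap D c

lemma B_graded : IsGraded (B k m) := by
  intro i j f g hf hg
  rw [B_br]
  rcases i with _ | i
  · rw [der_const k m hf, der_const k m hf]
    simp [isHomogeneous_zero]
  rcases j with _ | j
  · rw [der_const k m hg, der_const k m hg]
    simp [isHomogeneous_zero]
  have e1 : (i + 1 + (j + 1)) = i + (j + 2) := by ring
  have e2 : (i + 1 + (j + 1)) = (i + 2) + j := by ring
  apply IsHomogeneous.sub
  · rw [e1]
    exact (Dx_hom k m hf).mul (Ez_hom k m hg)
  · rw [e2]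
    exact (Ez_hom k m hf).mul (Dx_hom k m hg)

lemma mem_center {f : MvPolynomial (Fin (m + 1)) k} (h1 : Dx k m f = 0) (h2 : Ez k m f = 0) :
    f ∈ (B k m).center := by
  intro a
  rw [B_br, h1, h2]
  ring

lemma pow_mem_center (p : ℕ) [CharP k p] (f : MvPolynomial (Fin (m + 1)) k) :
    f ^ p ∈ (B k m).center := by
  have : ((p : ℕ) : MvPolynomial (Fin (m + 1)) k) = 0 := CharP.cast_eq_zero _ p
  apply mem_center
  · rw [Derivation.leibniz_pow, nsmul_eq_mul, this, zero_mul]
  · rw [Derivation.leibniz_pow, nsmul_eq_mul, this, zero_mul]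

/-- the monomials `x ^ i * z ^ j`, `i, j < p` -/
noncomputable def mon (p : ℕ) (z : Fin (m + 1)) (q : Fin p × Fin p) : MvPolynomial (Fin (m + 1)) k :=
  X 0 ^ (q.1 : ℕ) * X z ^ (q.2 : ℕ)

/-- the span of these monomials over the Poisson center -/
noncomputable def Sp (p : ℕ) (z : Fin (m + 1)) :
    Submodule (B k m).center (MvPolynomial (Fin (m + 1)) k) :=
  Submodule.span (B k m).center (Set.range (mon k m p z))

lemma csmul (c : (B k m).center) (f : MvPolynomial (Fin (m + 1)) k) :
    c • f = (c : MvPolynomial (Fin (m + 1)) k) * f := rfl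

lemma Sp_mul (p : ℕ) (z : Fin (m + 1)) (g : MvPolynomial (Fin (m + 1)) k)
    (hg : ∀ q, mon k m p z q * g ∈ Sp k m p z) {s} (hs : s ∈ Sp k m p z) :
    s * g ∈ Sp k m p z := by
  induction hs using Submodule.span_induction with
  | mem x hx =>
    obtain ⟨q, rfl⟩ := hx
    exact hg q
  | zero => simp
  | add x y _ _ hx hy => rw [add_mul]; exact add_mem hx hy
  | smul c x _ hx =>
    rw [csmul, mul_assoc, ← csmul]
    exact Submodule.smul_mem _ c hx

lemma Sp_mul_x (p : ℕ) [CharP k p] (hp : 0 < p) (z : Fin (m + 1)) {s} (hs : s ∈ Sp k m p z) :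
    s * X 0 ∈ Sp k m p z := by
  apply Sp_mul k m p z _ _ hs
  rintro ⟨i, j⟩
  by_cases h : (i : ℕ) + 1 < p
  · have : mon k m p z (i, j) * X 0 = mon k m p z (⟨i + 1, h⟩, j) := by
      simp only [mon]; ring
    rw [this]
    exact Submodule.subset_span ⟨_, rfl⟩
  · have hi : (i : ℕ) + 1 = p := by omega
    have : mon k m p z (i, j) * X 0 =
        (⟨(X 0 : MvPolynomial (Fin (m + 1)) k) ^ p, pow_mem_center k m p _⟩ : (B k m).center) •
          mon k m p z (⟨0, hp⟩, j) := by
      have e : (X 0 : MvPolynomial (Fin (m + 1)) k) ^ p = X 0 ^ ((i : ℕ) + 1) := by rw [hi]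
      rw [csmul]
      simp only [mon, pow_zero, one_mul]
      rw [e]
      ring
    rw [this]
    exact Submodule.smul_mem _ _ (Submodule.subset_span ⟨_, rfl⟩)

lemma Sp_mul_z (p : ℕ) [CharP k p] (hp : 0 < p) (z : Fin (m + 1)) {s} (hs : s ∈ Sp k m p z) :
    s * X z ∈ Sp k m p z := by
  apply Sp_mul k m p z _ _ hs
  rintro ⟨i, j⟩
  by_cases h : (j : ℕ) + 1 < p
  · have : mon k m p z (i, j) * X z = mon k m p z (i, ⟨j + 1, h⟩) := by
      simp only [mon]; ring
    rw [this]
    exact Submodule.subset_span ⟨_, rfl⟩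
  · have hi : (j : ℕ) + 1 = p := by omega
    have : mon k m p z (i, j) * X z =
        (⟨(X z : MvPolynomial (Fin (m + 1)) k) ^ p, pow_mem_center k m p _⟩ : (B k m).center) •
          mon k m p z (i, ⟨0, hp⟩) := by
      have e : (X z : MvPolynomial (Fin (m + 1)) k) ^ p = X z ^ ((j : ℕ) + 1) := by rw [hi]
      rw [csmul]
      simp only [mon, pow_zero, mul_one]
      rw [e]
      ring
    rw [this]
    exact Submodule.smul_mem _ _ (Submodule.subset_span ⟨_, rfl⟩)

lemma Sp_mul_zpow (p : ℕ) [CharP k p] (hp : 0 < p) (z : Fin (m + 1)) (a : ℕ) {s}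
    (hs : s ∈ Sp k m p z) : s * X z ^ a ∈ Sp k m p z := by
  induction a with
  | zero => simpa using hs
  | succ a ih =>
    rw [pow_succ, ← mul_assoc]
    exact Sp_mul_z k m p hp z ih

/-- the central element `z ^ (p-1) z_j ^ p - z ^ p z_j ^ (p-1)` -/
lemma c_mem_center (p : ℕ) [CharP k p] (hp : 0 < p) {z j : Fin (m + 1)} (hz : z ≠ 0)
    (hj : j ≠ 0) :
    (X z ^ (p - 1) * X j ^ p - X z ^ p * X j ^ (p - 1) : MvPolynomial (Fin (m + 1)) k) ∈
      (B k m).center := by
  obtain ⟨q, rfl⟩ : ∃ q, p = q + 1 := ⟨p - 1, by omega⟩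
  have hq : ((q + 1 : ℕ) : MvPolynomial (Fin (m + 1)) k) = 0 := CharP.cast_eq_zero _ (q + 1)
  have hq' : ((q : ℕ) : MvPolynomial (Fin (m + 1)) k) = -1 := by
    have : ((q : ℕ) : MvPolynomial (Fin (m + 1)) k) + 1 = 0 := by exact_mod_cast hq
    linear_combination this
  apply mem_center
  · simp only [map_sub, Derivation.leibniz, Derivation.leibniz_pow, Dx_X k m hz, Dx_X k m hj,
      smul_zero, sub_zero, add_zero]
  · rcases q with _ | q
    · exfalso
      have h1 : (((0 + 1 : ℕ)) : k) = 0 := CharP.cast_eq_zero k (0 + 1)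
      rw [zero_add, Nat.cast_one] at h1
      exact one_ne_zero h1
    · simp only [map_sub, Derivation.leibniz, Derivation.leibniz_pow, Ez_X k m hz, Ez_X k m hj,
        smul_eq_mul, nsmul_eq_mul, Nat.add_sub_cancel, hq, hq', zero_mul, mul_zero]
      ring

/-- the monomials `x ^ i z ^ j`, `i, j < p`, span `P` up to central denominators -/
lemma exists_mem_Sp (p : ℕ) [CharP k p] (hp : 0 < p) {z : Fin (m + 1)} (hz : z ≠ 0)
    (f : MvPolynomial (Fin (m + 1)) k) :
    ∃ c : (B k m).center, c ≠ 0 ∧ c • f ∈ Sp k m p z := by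
  induction f using MvPolynomial.induction_on with
  | C a =>
    refine ⟨1, one_ne_zero, ?_⟩
    rw [one_smul]
    have : (C a : MvPolynomial (Fin (m + 1)) k) =
        (algebraMap k (B k m).center a) • mon k m p z (⟨0, hp⟩, ⟨0, hp⟩) := by
      rw [csmul]
      simp [mon, MvPolynomial.algebraMap_eq]
    rw [this]
    exact Submodule.smul_mem _ _ (Submodule.subset_span ⟨_, rfl⟩)
  | add f g hf hg =>
    obtain ⟨c, hc, hcf⟩ := hf
    obtain ⟨d, hd, hdg⟩ := hg
    refine ⟨c * d, mul_ne_zero hc hd, ?_⟩
    rw [smul_add]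
    apply add_mem
    · rw [mul_comm, mul_smul]
      exact Submodule.smul_mem _ _ hcf
    · rw [mul_smul]
      exact Submodule.smul_mem _ _ hdg
  | mul_X f i hf =>
    obtain ⟨c, hc, hcf⟩ := hf
    by_cases hi : i = 0
    · subst hi
      refine ⟨c, hc, ?_⟩
      have := Sp_mul_x k m p hp z hcf
      rwa [csmul, mul_assoc, ← csmul] at this
    · -- `w = z ^ p z_j ^ (p-1)`
      set w : MvPolynomial (Fin (m + 1)) k := X z ^ p * X i ^ (p - 1) with hw
      have hw0 : w ≠ 0 := mul_ne_zero (pow_ne_zero _ (X_ne_zero _)) (pow_ne_zero _ (X_ne_zero _))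
      have hwS : ∀ s ∈ Sp k m p z, s * w ∈ Sp k m p z := by
        intro s hs
        have e : s * w = (⟨(X i : MvPolynomial (Fin (m + 1)) k) ^ p, pow_mem_center k m p _⟩ :
            (B k m).center) • (s * X z ^ (p - 1)) -
            (⟨_, c_mem_center k m p hp hz hi⟩ : (B k m).center) • s := by
          rw [csmul, csmul, hw]
          ring
        rw [e]
        exact sub_mem (Submodule.smul_mem _ _ (Sp_mul_zpow k m p hp z _ hs))
          (Submodule.smul_mem _ _ hs)
      have hwp : ∀ a : ℕ, ∀ s ∈ Sp k m p z, s * w ^ a ∈ Sp k m p z := by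
        intro a
        induction a with
        | zero => intro s hs; simpa using hs
        | succ a ih =>
          intro s hs
          rw [pow_succ, ← mul_assoc]
          exact hwS _ (ih s hs)
      have hcw : (⟨w ^ p, pow_mem_center k m p _⟩ : (B k m).center) ≠ 0 := by
        intro h
        exact pow_ne_zero p hw0 (congrArg Subtype.val h)
      refine ⟨c * ⟨w ^ p, pow_mem_center k m p _⟩, mul_ne_zero hc hcw, ?_⟩
      have e : (c * ⟨w ^ p, pow_mem_center k m p _⟩ : (B k m).center) • (f * X i) =
          (⟨(X z : MvPolynomial (Fin (m + 1)) k) ^ p, pow_mem_center k m p _⟩ *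
            ⟨(X i : MvPolynomial (Fin (m + 1)) k) ^ p, pow_mem_center k m p _⟩ :
            (B k m).center) • ((c • f) * w ^ (p - 1)) := by
        obtain ⟨q, rfl⟩ : ∃ q, p = q + 1 := ⟨p - 1, by omega⟩
        simp only [csmul, MulMemClass.coe_mul, Nat.add_sub_cancel] at hw ⊢
        have : w ^ (q + 1) * X i = X z ^ (q + 1) * X i ^ (q + 1) * w ^ q := by
          have h3 : w * X i = X z ^ (q + 1) * X i ^ (q + 1) := by
            rw [hw]; ring
          rw [pow_succ, mul_assoc, h3]
          ring
        linear_combination (c : MvPolynomial (Fin (m + 1)) k) * f * this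
      rw [e]
      exact Submodule.smul_mem _ _ (hwp _ _ hcf)

/-- the rank over the center is at most `p ^ 2` -/
lemma rk_le (p : ℕ) [CharP k p] (hp : 0 < p) (hm : 0 < m) :
    (B k m).rk ≤ ((p ^ 2 : ℕ) : Cardinal) := by
  obtain ⟨z, hz⟩ : ∃ z : Fin (m + 1), z ≠ 0 := ⟨⟨1, by omega⟩, by simp [Fin.ext_iff]⟩
  have h := rank_le_of_span (mon k m p z) (exists_mem_Sp k m p hp hz)
  refine h.trans ?_
  simp [pow_two]

/-- the log-ozone derivation `δ_{z_i} = z_i ∂/∂x` -/
noncomputable def del (i : Fin (m + 1)) :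
    Derivation k (MvPolynomial (Fin (m + 1)) k) (MvPolynomial (Fin (m + 1)) k) :=
  (X i : MvPolynomial (Fin (m + 1)) k) • Dx k m

lemma del_mem {i : Fin (m + 1)} (hi : i ≠ 0) : del k m i ∈ (B k m).loz := by
  apply AddSubgroup.subset_closure
  have h : ∀ a, X i * del k m i a = (B k m).br a (X i) := by
    intro a
    rw [B_br, Dx_X k m hi, Ez_X k m hi, del, Derivation.smul_apply, smul_eq_mul]
    ring
  exact ⟨X i, ⟨X_ne_zero i, fun a => ⟨del k m i a, (h a).symm⟩⟩, h⟩

lemma le_loz (p : ℕ) [CharP k p] :
    ((p ^ m : ℕ) : Cardinal) ≤ Cardinal.mk (B k m).loz := by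
  classical
  let φ : (Fin m → Fin p) → (B k m).loz := fun v =>
    ⟨∑ i : Fin m, (v i : ℕ) • del k m i.succ,
      sum_mem fun i _ => nsmul_mem (del_mem k m (Fin.succ_ne_zero i)) _⟩
  have hφ : Function.Injective φ := by
    intro v w h
    have h1 : (∑ i : Fin m, (v i : ℕ) • del k m i.succ) =
      ∑ i : Fin m, (w i : ℕ) • del k m i.succ := congrArg Subtype.val h
    have h2 := congrArg (fun d => d (X 0)) h1
    simp only [sum_der_apply] at h2
    have h3 : ∀ (u : Fin m → Fin p) (i : Fin m),
        ((u i : ℕ) • del k m i.succ) (X 0) = C ((u i : ℕ) : k) * X i.succ := by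
      intro u i
      rw [Derivation.smul_apply, del, Derivation.smul_apply, Dx_X0, smul_eq_mul, mul_one,
        nsmul_eq_mul]
      simp
    simp only [h3] at h2
    funext i
    have h4 := congrArg (coeff (Finsupp.single i.succ 1)) h2
    simp only [coeff_sum, coeff_C_mul, coeff_X] at h4
    simp only [Finsupp.single_left_inj (one_ne_zero), Fin.succ_inj, mul_ite, mul_one, mul_zero,
      Finset.sum_ite_eq', Finset.mem_univ, if_true] at h4
    have h5 := CharP.natCast_injOn_Iio k p (v i).2 (w i).2 h4
    exact Fin.ext h5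
  have h := Cardinal.mk_le_of_injective (f := ULift.down ∘ (fun x : ULift.{u} (Fin m → Fin p) => ULift.up.{u} (φ x.down)))
    (by
      intro a b hab
      exact ULift.down_injective (hφ hab))
  simpa using h

end example_

/-- **Theorem.**  For every prime `p`, every field `k` of characteristic `p` and every `n ≥ 4`
some graded polynomial Poisson algebra `P = k[x_1, …, x_n]` has rank at most `p ^ 2` over its
Poisson center and at least `p ^ (n-1)` log-ozone derivations; in particular
`|loz(P)| > rk_{Z(P)}(P)`. -/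
theorem result (p : ℕ) (hp : p.Prime) (k : Type u) [Field k] [CharP k p] (n : ℕ) (hn : 4 ≤ n) :
    ∃ B : PoissonBracket k (MvPolynomial (Fin n) k), IsGraded B ∧
      B.rk ≤ ((p ^ 2 : ℕ) : Cardinal) ∧ ((p ^ (n - 1) : ℕ) : Cardinal) ≤ Cardinal.mk B.loz ∧
      B.rk < Cardinal.mk B.loz := by
  obtain ⟨m, rfl⟩ : ∃ m, n = m + 1 := ⟨n - 1, by omega⟩
  refine ⟨B k m, B_graded k m, rk_le k m p hp.pos (by omega), by simpa using le_loz k m p, ?_⟩
  refine (rk_le k m p hp.pos (by omega)).trans_lt (lt_of_lt_of_le ?_ (le_loz k m p))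
  exact_mod_cast Nat.pow_lt_pow_right hp.one_lt (by omega)

end Pool.Agent.Results.MP_987c99_al.LozExceedsRank
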